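import Pool.Agent.Y187.WQ.Stm

/-! Lower semicontinuity at zero. -/

set_option autoImplicit false

open scoped ComplexOrder InnerProductSpace
open Finset Filter

noncomputable section

namespace Pool.Agent.Y585.WQ

open Pool.Agent.Y187.WQ

theorem quad_aux {P Q z2 : ℝ} (hQ : 0 ≤ Q) (h : ∀ t : ℝ, 0 ≤ P - 2 * t * z2 + t ^ 2 * z2 * Q) :
    z2 ≤ P * Q := by
  rcases hQ.lt_or_eq with hQ | hQ
  · have h1 := h (1 / Q)
    have e : P - 2 * (1 / Q) * z2 + (1 / Q) ^ 2 * z2 * Q = (P * Q - z2) / Q := by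
      field_simp; ring
    rw [e] at h1
    have := (div_nonneg_iff.1 h1)
    rcases this with ⟨h2, _⟩ | ⟨_, h2⟩
    · linarith
    · linarith
  · rw [← hQ, mul_zero]
    by_contra hz
    rw [not_le] at hz
    have h1 := h ((P + 1) / (2 * z2))
    rw [← hQ, mul_zero, add_zero] at h1
    have e : 2 * ((P + 1) / (2 * z2)) * z2 = P + 1 := by field_simp
    rw [e] at h1
    linarith

section
variable {H : Type} [NormedAddCommGroup H] [InnerProductSpace ℂ H] [CompleteSpace H]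

theorem inner_pos {T : H →L[ℂ] H} (h : 0 ≤ T) (ξ : H) :
    0 ≤ (⟪ξ, T ξ⟫_ℂ).re ∧ (⟪ξ, T ξ⟫_ℂ).im = 0 := by
  have hp := (ContinuousLinearMap.nonneg_iff_isPositive T).1 h
  have := hp.inner_nonneg_right ξ
  rw [Complex.le_def] at this
  exact ⟨this.1, this.2.symm⟩

variable (N M : VonNeumannAlgebra H) (E : (H →L[ℂ] H) → (H →L[ℂ] H))

theorem smul_memV {c : ℂ} {x : H →L[ℂ] H} (hx : x ∈ M) : c • x ∈ M := by
  have h5 : x ∈ M.toStarSubalgebra := hx
  have h6 : c • x ∈ M.toStarSubalgebra := M.toStarSubalgebra.smul_mem h5 c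
  exact h6

variable {N M E}

/-- the functional -/
def fu (E : (H →L[ℂ] H) → (H →L[ℂ] H)) (ξ : H) (x : H →L[ℂ] H) : ℂ := ⟪ξ, E x ξ⟫_ℂ

theorem fu_add (hE : IsCE N M E) (ξ : H) {x y : H →L[ℂ] H} (hx : x ∈ M) (hy : y ∈ M) :
    fu E ξ (x + y) = fu E ξ x + fu E ξ y := by
  unfold fu
  rw [hE.add x hx y hy, add_apply, inner_add_right]

theorem fu_smul (hE : IsCE N M E) (ξ : H) (c : ℂ) {x : H →L[ℂ] H} (hx : x ∈ M) :
    fu E ξ (c • x) = c * fu E ξ x := by
  unfold fu
  rw [hE.smul c x hx, smul_apply, inner_smul_right]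

theorem fu_sub (hE : IsCE N M E) (ξ : H) {x y : H →L[ℂ] H} (hx : x ∈ M) (hy : y ∈ M) :
    fu E ξ (x - y) = fu E ξ x - fu E ξ y := by
  have e : x - y = x + (-1 : ℂ) • y := by rw [neg_one_smul, sub_eq_add_neg]
  rw [e, fu_add hE ξ hx (smul_memV M hy), fu_smul hE ξ _ hy]
  ring

theorem fu_pos (hE : IsCE N M E) (ξ : H) {x : H →L[ℂ] H} (hx : x ∈ M) (h : 0 ≤ x) :
    0 ≤ (fu E ξ x).re ∧ (fu E ξ x).im = 0 := inner_pos (hE.pos x hx h) ξ

theorem fu_sa (hE : IsCE N M E) (ξ : H) {x : H →L[ℂ] H} (hx : x ∈ M) (h : star x = x) :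
    (fu E ξ x).im = 0 := by
  have h1 : (1 : H →L[ℂ] H) ∈ M := one_mem M
  set r : ℝ := ‖x‖ with hr
  have hr1 : ((r : ℝ) : ℂ) • (1 : H →L[ℂ] H) ∈ M := smul_memV M h1
  have hle : x ≤ ((r : ℝ) : ℂ) • (1 : H →L[ℂ] H) := by
    have hsa : IsSelfAdjoint x := h
    have := hsa.le_algebraMap_norm_self
    rw [Algebra.algebraMap_eq_smul_one] at this
    rw [Complex.coe_smul]
    exact this
  have hp := fu_pos hE ξ (sub_mem hr1 hx) (sub_nonneg.2 hle)
  have hp1 := fu_pos hE ξ h1 zero_le_one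
  rw [fu_sub hE ξ hr1 hx, fu_smul hE ξ _ h1, Complex.sub_im, Complex.im_ofReal_mul, hp1.2] at hp
  have := hp.2
  rw [mul_zero, zero_sub, neg_eq_zero] at this
  exact this

theorem fu_star (hE : IsCE N M E) (ξ : H) {x : H →L[ℂ] H} (hx : x ∈ M) :
    fu E ξ (star x) = (starRingEnd ℂ) (fu E ξ x) := by
  have hsx : star x ∈ M := star_mem hx
  have h1 : (fu E ξ (x + star x)).im = 0 := by
    apply fu_sa hE ξ (add_mem hx hsx)
    rw [star_add, star_star, add_comm]
  have h2 : (fu E ξ (Complex.I • (x - star x))).im = 0 := by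
    apply fu_sa hE ξ (smul_memV M (sub_mem hx hsx))
    rw [star_smul, star_sub, star_star]
    have : (star Complex.I : ℂ) = -Complex.I := Complex.conj_I
    rw [this]
    module
  rw [fu_add hE ξ hx hsx, Complex.add_im] at h1
  rw [fu_smul hE ξ _ (sub_mem hx hsx), fu_sub hE ξ hx hsx, Complex.I_mul_im, Complex.sub_re] at h2
  apply Complex.ext
  · rw [Complex.conj_re]; linarith
  · rw [Complex.conj_im]; linarith

theorem fu_cs (hE : IsCE N M E) (ξ : H) {a b : H →L[ℂ] H} (ha : a ∈ M) (hb : b ∈ M) :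
    ‖fu E ξ (star a * b)‖ ^ 2 ≤ (fu E ξ (star a * a)).re * (fu E ξ (star b * b)).re := by
  have hsa : star a ∈ M := star_mem ha
  have hsb : star b ∈ M := star_mem hb
  have haa : star a * a ∈ M := mul_mem hsa ha
  have hab : star a * b ∈ M := mul_mem hsa hb
  have hba : star b * a ∈ M := mul_mem hsb ha
  have hbb : star b * b ∈ M := mul_mem hsb hb
  set z : ℂ := fu E ξ (star a * b) with hz
  have hz' : fu E ξ (star b * a) = (starRingEnd ℂ) z := by
    rw [hz, ← fu_star hE ξ hab, star_mul, star_star]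
  have hP := fu_pos hE ξ haa (star_mul_self_nonneg a)
  have hQ := fu_pos hE ξ hbb (star_mul_self_nonneg b)
  apply quad_aux hQ.1
  intro t
  set c : ℂ := (t : ℂ) * (starRingEnd ℂ) z with hc
  have hcb : c • b ∈ M := smul_memV M hb
  have hpos := fu_pos hE ξ (mul_mem (star_mem (sub_mem ha hcb)) (sub_mem ha hcb))
    (star_mul_self_nonneg (a - c • b))
  have hexp : star (a - c • b) * (a - c • b) =
      (star a * a - c • (star a * b)) - ((starRingEnd ℂ c) • (star b * a)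
        - ((starRingEnd ℂ c) * c) • (star b * b)) := by
    rw [star_sub, star_smul, sub_mul, mul_sub, mul_sub, smul_mul_assoc, smul_mul_assoc,
      mul_smul_comm, mul_smul_comm, smul_smul]
    rfl
  rw [hexp, fu_sub hE ξ (sub_mem haa (smul_memV M hab)) (sub_mem (smul_memV M hba)
    (smul_memV M hbb)), fu_sub hE ξ haa (smul_memV M hab), fu_sub hE ξ (smul_memV M hba)
    (smul_memV M hbb), fu_smul hE ξ _ hab, fu_smul hE ξ _ hba, fu_smul hE ξ _ hbb, hz', ← hz]
    at hpos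
  have h1 := hpos.1
  have hcz : c * z = ((t * ‖z‖ ^ 2 : ℝ) : ℂ) := by
    rw [hc, mul_assoc, Complex.conj_mul']
    push_cast; ring
  have hcz' : (starRingEnd ℂ) c * (starRingEnd ℂ) z = ((t * ‖z‖ ^ 2 : ℝ) : ℂ) := by
    rw [← map_mul, hcz, Complex.conj_ofReal]
  have hcc : (starRingEnd ℂ) c * c = ((t ^ 2 * ‖z‖ ^ 2 : ℝ) : ℂ) := by
    rw [Complex.conj_mul', ← Complex.ofReal_pow]
    congr 1
    rw [hc, norm_mul, Complex.norm_conj, Complex.norm_real, mul_pow, Real.norm_eq_abs, sq_abs]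
  rw [hcz, hcz', hcc] at h1
  simp only [Complex.sub_re, Complex.ofReal_re, Complex.re_ofReal_mul] at h1
  linarith

end

theorem t_cs : W_cs := by
  intro H _ _ _ N M E hE ι l _ w v hw hv ⟨r, hr⟩ hweak ξ hlim
  have hsv : star v ∈ M := star_mem hv
  -- normality
  have h1 : Tendsto (fun i => ⟪ξ, E (star v * w i) ξ⟫_ℂ) l (nhds ⟪ξ, E (star v * v) ξ⟫_ℂ) := by
    apply hE.normal ι l (fun i => star v * w i) (star v * v) (fun i => mul_mem hsv (hw i))
      (mul_mem hsv hv)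
    · refine ⟨‖star v‖ * r, fun i => ?_⟩
      exact (norm_mul_le _ _).trans (mul_le_mul_of_nonneg_left (hr i) (norm_nonneg _))
    · intro ζ η
      have h := hweak ζ (v η)
      have e : ∀ x : H →L[ℂ] H, ⟪η, (star v * x) ζ⟫_ℂ = ⟪v η, x ζ⟫_ℂ := by
        intro x
        rw [ContinuousLinearMap.mul_apply, ContinuousLinearMap.star_eq_adjoint,
          ContinuousLinearMap.adjoint_inner_right]
      simp only [e]
      exact h
  have h2 : Tendsto (fun i => ⟪ξ, E (star v * w i) ξ⟫_ℂ) l (nhds 0) := by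
    rw [tendsto_zero_iff_norm_tendsto_zero]
    have h3 : ∀ i, ‖⟪ξ, E (star v * w i) ξ⟫_ℂ‖ ≤ Real.sqrt ((fu E ξ (star v * v)).re *
        (⟪ξ, E (star (w i) * w i) ξ⟫_ℂ).re) := by
      intro i
      apply Real.le_sqrt_of_sq_le
      exact fu_cs hE ξ hv (hw i)
    have h4 : Tendsto (fun i => Real.sqrt ((fu E ξ (star v * v)).re *
        (⟪ξ, E (star (w i) * w i) ξ⟫_ℂ).re)) l (nhds 0) := by
      have h5 := (hlim.const_mul (fu E ξ (star v * v)).re)
      rw [mul_zero] at h5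
      have h6 := (Real.continuous_sqrt.tendsto 0).comp h5
      rw [Real.sqrt_zero] at h6
      exact h6
    exact squeeze_zero (fun i => norm_nonneg _) h3 h4
  exact tendsto_nhds_unique h1 h2

end Pool.Agent.Y585.WQ
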