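import Pool.Agent.Y187.WQ.Stm

/-! Commuting with unitaries is enough, in corners; lower semicontinuity at zero. -/

set_option autoImplicit false

open scoped ComplexOrder InnerProductSpace
open Finset Filter

noncomputable section

namespace Pool.Agent.Y585.WQ

open Pool.Agent.Y187.WQ
open H759R2.Kad (IsFac IsPr Prj Fnt)

section
variable {H : Type} [NormedAddCommGroup H] [InnerProductSpace ℂ H] [CompleteSpace H]

theorem mem_of_commute (N : VonNeumannAlgebra H) (v : H →L[ℂ] H)
    (h : ∀ T ∈ N.commutant, Commute T v) : v ∈ N := by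
  rw [← N.commutant_commutant, VonNeumannAlgebra.mem_commutant_iff]
  intro g hg
  exact h g hg

theorem commute_sa (N : VonNeumannAlgebra H) (q : H →L[ℂ] H) (c : H →L[ℂ] H)
    (hc : ∀ u ∈ unitary (H →L[ℂ] H), u ∈ N → u * q = q * u → Commute u c)
    (hq : star q = q) (h : H →L[ℂ] H) (hN : h ∈ N) (hs : IsSelfAdjoint h)
    (hhq : Commute h q) : Commute h c := by
  set r : ℝ := ‖h‖ + 1 with hr
  have hr0 : 0 < r := by positivity
  set h' : H →L[ℂ] H := ((r⁻¹ : ℝ) : ℂ) • h with hh'
  have hs' : IsSelfAdjoint h' := by
    rw [hh', IsSelfAdjoint, star_smul, hs.star_eq]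
    congr 1
    exact Complex.conj_ofReal _
  have hn' : ‖h'‖ ≤ 1 := by
    rw [hh', norm_smul, Complex.norm_real, Real.norm_of_nonneg (inv_pos.2 hr0).le,
      inv_mul_le_one₀ hr0]
    linarith
  have hback : h = ((r : ℝ) : ℂ) • h' := by
    rw [hh', smul_smul, ← Complex.ofReal_mul, mul_inv_cancel₀ hr0.ne', Complex.ofReal_one,
      one_smul]
  set S : H →L[ℂ] H := CFC.sqrt (1 - h' ^ 2) with hS
  have hSs : star S = S := (CFC.sqrt_nonneg (1 - h' ^ 2)).isSelfAdjoint.star_eq
  set v : H →L[ℂ] H := h' + Complex.I • S with hv
  have hvu : v ∈ unitary (H →L[ℂ] H) :=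
    IsSelfAdjoint.self_add_I_smul_cfcSqrt_sub_sq_mem_unitary h' hs' hn'
  -- commutation
  have key : ∀ T : H →L[ℂ] H, Commute h T → Commute v T ∧ Commute S T := by
    intro T hT
    have h1 : Commute h' T := hT.smul_left _
    have h2 : Commute (1 - h' ^ 2) T := (Commute.one_left T).sub_left (h1.pow_left 2)
    have h3 : Commute S T := h2.cfcₙ_nnreal _
    exact ⟨h1.add_left (h3.smul_left _), h3⟩
  have hvN : v ∈ N := by
    apply mem_of_commute
    intro T hT
    have : Commute h T := by
      rw [VonNeumannAlgebra.mem_commutant_iff] at hT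
      exact hT h hN
    exact (key T this).1.symm
  have hvq : Commute v q := (key q hhq).1
  have hvc : Commute v c := hc v hvu hvN hvq
  have hsvu : star v ∈ unitary (H →L[ℂ] H) := Unitary.star_mem hvu
  have hsvN : star v ∈ N := star_mem hvN
  have hsvq : Commute (star v) q := by
    have := congrArg star hvq.eq
    rw [star_mul, star_mul, hq] at this
    exact this.symm
  have hsvc : Commute (star v) c := hc _ hsvu hsvN hsvq
  have hsum : h' = (2⁻¹ : ℂ) • (v + star v) := by
    have e0 : (star Complex.I : ℂ) = -Complex.I := Complex.conj_I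
    have e1 : star v = h' + (-Complex.I) • S := by
      rw [hv, star_add, star_smul Complex.I S, hSs, hs'.star_eq, e0]
    rw [e1, hv]
    module
  have h'c : Commute h' c := by
    rw [hsum]
    exact (hvc.add_left hsvc).smul_left _
  rw [hback]
  exact h'c.smul_left _

end

theorem t_span : W_span := by
  intro H _ _ _ N q hqN hq y hy a ha haq
  have hc : ∀ u ∈ unitary (H →L[ℂ] H), u ∈ N → u * q = q * u → Commute u (q * y * q) := by
    intro u hu huN huq
    have h1 := hy u hu huN huq
    have hsu : star u * u = 1 := (Unitary.mem_iff.1 hu).1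
    change u * (q * y * q) = (q * y * q) * u
    calc u * (q * y * q) = (u * q) * y * q := by simp only [mul_assoc]
      _ = (q * u) * y * q := by rw [huq]
      _ = (q * u) * y * ((star u * u) * q) := by rw [hsu, one_mul]
      _ = q * (u * y * star u) * (u * q) := by simp only [mul_assoc]
      _ = q * (u * y * star u) * (q * u) := by rw [huq]
      _ = (q * (u * y * star u) * q) * u := by simp only [mul_assoc]
      _ = (q * y * q) * u := by rw [h1]
  -- a commutes with q
  have haq1 : a * q = a := by
    conv_lhs => rw [← haq]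
    rw [mul_assoc, hq.2, haq]
  have haq2 : q * a = a := by
    conv_lhs => rw [← haq]
    rw [← mul_assoc, ← mul_assoc, hq.2, haq]
  have haqc : Commute a q := by
    change a * q = q * a
    rw [haq1, haq2]
  have hsaqc : Commute (star a) q := by
    have := congrArg star haqc.eq
    rw [star_mul, star_mul, hq.1] at this
    exact this.symm
  have hsa : star a ∈ N := star_mem ha
  have h1 : Commute (a + star a) (q * y * q) := by
    apply commute_sa N q _ hc hq.1
    · exact add_mem ha hsa
    · exact IsSelfAdjoint.add_star_self a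
    · exact haqc.add_left hsaqc
  have h2 : Commute (Complex.I • (a - star a)) (q * y * q) := by
    apply commute_sa N q _ hc hq.1
    · have h5 : a - star a ∈ N.toStarSubalgebra := sub_mem ha hsa
      have h6 : Complex.I • (a - star a) ∈ N.toStarSubalgebra :=
        N.toStarSubalgebra.smul_mem h5 Complex.I
      exact h6
    · rw [IsSelfAdjoint, star_smul, star_sub, star_star]
      have : (star Complex.I : ℂ) = -Complex.I := Complex.conj_I
      rw [this]
      module
    · exact (haqc.sub_left hsaqc).smul_left _
  have h3 : a = (2⁻¹ : ℂ) • ((a + star a) + (-Complex.I) • (Complex.I • (a - star a))) := by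
    rw [smul_smul, neg_mul, Complex.I_mul_I]
    module
  have h4 : Commute a (q * y * q) := by
    rw [h3]
    exact (h1.add_left (h2.smul_left _)).smul_left _
  exact h4.eq

end Pool.Agent.Y585.WQ
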